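import Pool.Agent.helper53.EXT.SpecG

set_option autoImplicit false

open Finset

namespace Pool.Agent.EXT

open Pool.Agent.EXC

theorem G5X_conj {F : Type} [Field F] (G : Matrix.SpecialLinearGroup (Fin 4) F) (Y C : Matrix (Fin 4) (Fin 4) F)
    (h : (G : Matrix (Fin 4) (Fin 4) F) * Y = C * (G : Matrix (Fin 4) (Fin 4) F)) :
    (G : Matrix (Fin 4) (Fin 4) F) * Y * ((G⁻¹ : Matrix.SpecialLinearGroup (Fin 4) F) : Matrix (Fin 4) (Fin 4) F) = C := by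
  rw [h, Matrix.mul_assoc, ← Matrix.SpecialLinearGroup.coe_mul, mul_inv_cancel, Matrix.SpecialLinearGroup.coe_one, Matrix.mul_one]

theorem G5X_Z {F : Type} [Field F] (k : F) :
    (!![1, 1, -5, -1; k, 1 + k, 5 - 5 * k + k ^ 2, -2 * k; 0, 0, 1, 0; 0, 0, 0, 1] : Matrix (Fin 4) (Fin 4) F) *
      !![1, 0, 0, 0; 0, 1, 0, 0; 1, 0, 1 + k, -1; 0, 1, -k, 1] =
      !![-4, 0, -5 - 4 * k, 4; 5 - 4 * k + k ^ 2, 1 - k, 5 - 2 * k ^ 2 + k ^ 3, -5 + 3 * k - k ^ 2; 1, 0, 1 + k, -1; 0, 1, -k, 1] := by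
  ext i j
  fin_cases i <;> fin_cases j <;> simp [Matrix.mul_apply, Fin.sum_univ_four] <;> ring

theorem G5X_Z2 {F : Type} [Field F] (k : F) :
    (!![-4, 0, -5 - 4 * k, 4; 5 - 4 * k + k ^ 2, 1 - k, 5 - 2 * k ^ 2 + k ^ 3, -5 + 3 * k - k ^ 2; 1, 0, 1 + k, -1; 0, 1, -k, 1] : Matrix (Fin 4) (Fin 4) F) *
      !![-4, 0, -5 - 4 * k, 4; 5 - 4 * k + k ^ 2, 1 - k, 5 - 2 * k ^ 2 + k ^ 3, -5 + 3 * k - k ^ 2; 1, 0, 1 + k, -1; 0, 1, -k, 1] =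
      !![11 - 4 * k, 4, 15 + 3 * k - 4 * k ^ 2, -7 + 4 * k; -10 + 7 * k - k ^ 2, -4 + k, -15 + 5 * k + 4 * k ^ 2 - k ^ 3, 5 - 5 * k + k ^ 2; -3 + k, -1, -4 - k + k ^ 2, 2 - k; 5 - 5 * k + k ^ 2, 2 - k, 5 - 2 * k - 3 * k ^ 2 + k ^ 3, -4 + 4 * k - k ^ 2] := by
  ext i j
  fin_cases i <;> fin_cases j <;> simp [Matrix.mul_apply, Fin.sum_univ_four] <;> ring

theorem G5X_Z3 {F : Type} [Field F] (k : F) :
    (!![11 - 4 * k, 4, 15 + 3 * k - 4 * k ^ 2, -7 + 4 * k; -10 + 7 * k - k ^ 2, -4 + k, -15 + 5 * k + 4 * k ^ 2 - k ^ 3, 5 - 5 * k + k ^ 2; -3 + k, -1, -4 - k + k ^ 2, 2 - k; 5 - 5 * k + k ^ 2, 2 - k, 5 - 2 * k - 3 * k ^ 2 + k ^ 3, -4 + 4 * k - k ^ 2] : Matrix (Fin 4) (Fin 4) F) *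
      !![-4, 0, -5 - 4 * k, 4; 5 - 4 * k + k ^ 2, 1 - k, 5 - 2 * k ^ 2 + k ^ 3, -5 + 3 * k - k ^ 2; 1, 0, 1 + k, -1; 0, 1, -k, 1] =
      !![-9 + 3 * k, -3, -20 + k + 3 * k ^ 2, 2 - 3 * k; 5 - 2 * k, 1, 15 - 5 * k - k ^ 2, k; 3 - k, 1, 6 - k ^ 2, -1 + k; -5 + 5 * k - k ^ 2, -2 + k, -10 + 7 * k + 2 * k ^ 2 - k ^ 3, 1 - 3 * k + k ^ 2] := by
  ext i j
  fin_cases i <;> fin_cases j <;> simp [Matrix.mul_apply, Fin.sum_univ_four] <;> ring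

theorem G5X_Z4 {F : Type} [Field F] (k : F) :
    (!![11 - 4 * k, 4, 15 + 3 * k - 4 * k ^ 2, -7 + 4 * k; -10 + 7 * k - k ^ 2, -4 + k, -15 + 5 * k + 4 * k ^ 2 - k ^ 3, 5 - 5 * k + k ^ 2; -3 + k, -1, -4 - k + k ^ 2, 2 - k; 5 - 5 * k + k ^ 2, 2 - k, 5 - 2 * k - 3 * k ^ 2 + k ^ 3, -4 + 4 * k - k ^ 2] : Matrix (Fin 4) (Fin 4) F) *
      !![11 - 4 * k, 4, 15 + 3 * k - 4 * k ^ 2, -7 + 4 * k; -10 + 7 * k - k ^ 2, -4 + k, -15 + 5 * k + 4 * k ^ 2 - k ^ 3, 5 - 5 * k + k ^ 2; -3 + k, -1, -4 - k + k ^ 2, 2 - k; 5 - 5 * k + k ^ 2, 2 - k, 5 - 2 * k - 3 * k ^ 2 + k ^ 3, -4 + 4 * k - k ^ 2] =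
      !![1 + k, -1, 10 + k ^ 2, 1 - k; -k, 1, -5 - k ^ 2, k; -1, 0, -4, 0; 0, -1, 5 - 4 * k + k ^ 2, 1 - k] := by
  ext i j
  fin_cases i <;> fin_cases j <;> simp [Matrix.mul_apply, Fin.sum_univ_four] <;> ring

theorem G5X : G5X_stmt := by
  intro F _ s1 s2 h1 h2
  have hd1 : (!![1 / s2, 0, -(s1 * s2) - 5 / (s1 * s2), s2; 0, 1, 5, s2; 0, 0, 1, 0; 0, 0, 0, s2] : Matrix (Fin 4) (Fin 4) F).det = 1 := by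
    simp [Matrix.det_succ_row_zero, Fin.sum_univ_succ, Fin.succAbove, h2]
  have hd2 : (!![0, 0, 0, 1 / s1; 0, 0, -1, 0; 0, 1, -(1 / (s1 * s2)), 0; -s1, 0, -1, 1 / s1] : Matrix (Fin 4) (Fin 4) F).det = 1 := by
    simp [Matrix.det_succ_row_zero, Fin.sum_univ_succ, Fin.succAbove, h1]
    norm_num
  have hY : Y4 1 0 s1 s2 = (!![1, s2, 0, 0; s1, 1 + s1 * s2, 0, 0; 0, 0, 1, 0; 0, 0, 0, 1] : Matrix (Fin 4) (Fin 4) F) := by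
    unfold Y4
    ext i j
    fin_cases i <;> fin_cases j <;> simp [Matrix.mul_apply, Fin.sum_univ_four, Matrix.single, Matrix.one_apply] <;> ring
  refine ⟨⟨_, hd1⟩, ⟨_, hd2⟩, 1, Or.inl rfl, ?_⟩
  intro Z hZ
  have e1 := G5X_conj (⟨_, hd1⟩ : Matrix.SpecialLinearGroup (Fin 4) F) (Y4 1 0 s1 s2)
    !![1, 1, -5, -1; (s1 * s2), 1 + (s1 * s2), 5 - 5 * (s1 * s2) + (s1 * s2) ^ 2, -2 * (s1 * s2); 0, 0, 1, 0; 0, 0, 0, 1] (by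
      rw [hY]
      ext i j
      fin_cases i <;> fin_cases j <;> simp [Matrix.mul_apply, Fin.sum_univ_four] <;> field_simp <;> ring)
  have e2 := G5X_conj (⟨_, hd2⟩ : Matrix.SpecialLinearGroup (Fin 4) F) (Y4 1 0 s1 s2)
    !![1, 0, 0, 0; 0, 1, 0, 0; 1, 0, 1 + (s1 * s2), -1; 0, 1, -(s1 * s2), 1] (by
      rw [hY]
      ext i j
      fin_cases i <;> fin_cases j <;> simp [Matrix.mul_apply, Fin.sum_univ_four] <;> field_simp <;> ring)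
  rw [e1, e2] at hZ
  generalize hk : s1 * s2 = k at hZ
  have hZ1 := hZ.trans (G5X_Z k)
  have hZ2 : Z ^ 2 = _ := (by rw [sq, hZ1] : Z ^ 2 = _).trans (G5X_Z2 k)
  have hZ3 : Z ^ 3 = _ := (by rw [pow_succ, hZ2, hZ1] : Z ^ 3 = _).trans (G5X_Z3 k)
  have hZ4 : Z ^ 4 = _ := (by rw [show Z ^ 4 = Z ^ 2 * Z ^ 2 by rw [← pow_add], hZ2] : Z ^ 4 = _).trans (G5X_Z4 k)
  rw [hZ4, hZ3, hZ2, hZ1]
  ext i j
  fin_cases i <;> fin_cases j <;> simp <;> ring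

end Pool.Agent.EXT
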